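import Pool.Agent.TH837.MX.Lower

/-!
Small sets in regular bipartite graphs, for (max,+) programs.
-/

set_option autoImplicit false

namespace Pool.Agent.TH837.SX

open Finset
open Pool.Agent.TH837.MX

/-- the vertices on one side: `n * q` vertices -/
abbrev Vx (n q : ℕ) : Type := Fin n × Fin q

/-- the possible edges: pairs of a left and a right vertex -/
abbrev Ed (n q : ℕ) : Type := Vx n q × Vx n q

/-- the set of possible edges `G` is the edge set of a `d`-regular bipartite graph -/
def Regular {n q : ℕ} (d : ℕ) (G : Finset (Ed n q)) : Prop :=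
  (∀ u, (univ.filter fun v => (u, v) ∈ G).card = d) ∧
    ∀ v, (univ.filter fun u => (u, v) ∈ G).card = d

/-- the set of the left vertices in `A` and the right vertices in `B` has `2 * n` elements, that is
a fraction `1 / q` of all vertices, and no edge of `G` leaves it -/
def Closed {n q : ℕ} (G : Finset (Ed n q)) (A B : Finset (Vx n q)) : Prop :=
  A.card + B.card = 2 * n ∧ ∀ e ∈ G, (e.1 ∈ A ↔ e.2 ∈ B)

/-- a randomised program (with the uniform distribution on `R`) whose value never exceeds the
largest total weight inside a set of at most `2 * n` vertices (for all nonnegative weights), and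
which for each `d`-regular graph with a closed set of `2 * n` vertices returns at least `ρ` times
the number `d * n` of the edges inside this set, with probability at least `p` -/
structure Approx {n q : ℕ} (ρ p : ℝ) {R : Type} [Fintype R]
    (f : R → (Ed n q → ℝ) → ℝ) : Prop where
  sound : ∀ (r : R) (w : Ed n q → ℝ), (∀ e, 0 ≤ w e) →
    ∃ A B : Finset (Vx n q), A.card + B.card ≤ 2 * n ∧ f r w ≤ ∑ e ∈ A ×ˢ B, w e
  good : ∀ (d : ℕ) (G : Finset (Ed n q)), Regular d G → (∃ A B, Closed G A B) →
    p * Nat.card R ≤ Nat.card {r : R // ρ * (d * n) ≤ f r (fun e => if e ∈ G then 1 else 0)}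

variable {n q : ℕ}

/-- the pairs of sets -/
abbrev Sets (n q : ℕ) : Type :=
  {z : Finset (Vx n q) × Finset (Vx n q) // z.1.card + z.2.card ≤ 2 * n}

/-- the system -/
def sys (n q : ℕ) [NeZero q] : Sys (Ed n q) (Fin q) (Fin q) Unit (Sets n q) n where
  a e := e.1.1
  b e := e.2.1
  Pl e x y _ := e.1.2 - x = e.2.2 - y
  Sat z := z.1.1 ×ˢ z.1.2

theorem am_gm {a b m : ℕ} (h : a + b ≤ 2 * m) : a * b ≤ m ^ 2 := by
  have h1 : (a : ℤ) + b ≤ 2 * m := by exact_mod_cast h
  have h2 : (0 : ℤ) ≤ a := by positivity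
  have h3 : (0 : ℤ) ≤ b := by positivity
  have h4 : (a : ℤ) * b ≤ m ^ 2 := by nlinarith [sq_nonneg ((a : ℤ) - b)]
  exact_mod_cast h4

open Classical in
theorem reg [NeZero q] : Reg (sys n q) (1 / q) (q ^ 2) (1 / q) (n ^ 2) where
  m0 := by
    have : 0 < q := Nat.pos_of_neZero q
    positivity
  ρ0 := by positivity
  τ0 := by positivity
  τ1 := by
    have : (1 : ℝ) ≤ q := by exact_mod_cast Nat.pos_of_neZero q
    rw [div_le_one (by linarith)]
    exact this
  rowA := by
    intro e y g
    have hq : (0 : ℝ) < q := by exact_mod_cast Nat.pos_of_neZero q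
    have h1 : (univ.filter fun x => (sys n q).Pl e x y g).card ≤ 1 := by
      rw [card_le_one]
      intro x hx x' hx'
      rw [mem_filter] at hx hx'
      have h2 : e.1.2 - x = e.2.2 - y := hx.2
      have h3 : e.1.2 - x' = e.2.2 - y := hx'.2
      exact sub_right_injective (h2.trans h3.symm)
    have h2 : 1 / (q : ℝ) * Fintype.card (Fin q) = 1 := by
      rw [Fintype.card_fin]
      field_simp
    rw [h2]
    exact_mod_cast h1
  rowB := by
    intro e x g
    have hq : (0 : ℝ) < q := by exact_mod_cast Nat.pos_of_neZero q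
    have h1 : (univ.filter fun y => (sys n q).Pl e x y g).card ≤ 1 := by
      rw [card_le_one]
      intro y hy y' hy'
      rw [mem_filter] at hy hy'
      have h2 : e.1.2 - x = e.2.2 - y := hy.2
      have h3 : e.1.2 - x = e.2.2 - y' := hy'.2
      exact sub_right_injective (h2.symm.trans h3)
    have h2 : 1 / (q : ℝ) * Fintype.card (Fin q) = 1 := by
      rw [Fintype.card_fin]
      field_simp
    rw [h2]
    exact_mod_cast h1
  pair := by
    intro i j
    have h1 : (univ.filter fun e : Ed n q => (sys n q).a e = i ∧ (sys n q).b e = j).card ≤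
        (univ : Finset (Fin q × Fin q)).card := by
      refine card_le_card_of_injOn (fun e => (e.1.2, e.2.2)) (fun _ _ => mem_coe.2 (mem_univ _)) ?_
      rintro ⟨⟨i1, a1⟩, ⟨j1, b1⟩⟩ he ⟨⟨i2, a2⟩, ⟨j2, b2⟩⟩ he' h
      rw [mem_coe, mem_filter] at he he'
      have h1 : i1 = i := he.2.1
      have h2 : j1 = j := he.2.2
      have h3 : i2 = i := he'.2.1
      have h4 : j2 = j := he'.2.2
      simp only [Prod.mk.injEq] at h
      rw [h1, h2, h3, h4, h.1, h.2]
    rw [card_univ, Fintype.card_prod, Fintype.card_fin] at h1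
    have h2 : (univ.filter fun e : Ed n q => (sys n q).a e = i ∧ (sys n q).b e = j).card ≤
        q ^ 2 := by rw [sq]; exact h1
    exact_mod_cast h2
  sat := by
    intro z
    have h1 : ((sys n q).Sat z).card ≤ n ^ 2 := by
      have h2 : ((sys n q).Sat z).card = z.1.1.card * z.1.2.card := card_product _ _
      rw [h2]
      exact am_gm z.2
    have h3 : (((sys n q).Sat z).card : ℝ) ≤ n ^ 2 := by exact_mod_cast h1
    gcongr

/-- the planted graph -/
def planted [NeZero q] (x y : Fin n → Fin q) : Finset (Ed n q) :=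
  univ.filter fun e => e.1.2 - x e.1.1 = e.2.2 - y e.2.1

theorem planted_regular [NeZero q] (x y : Fin n → Fin q) : Regular n (planted x y) := by
  constructor
  · rintro ⟨i, a⟩
    have h : (univ.filter fun v : Vx n q => ((i, a), v) ∈ planted x y) =
        univ.image fun j : Fin n => (j, a - x i + y j) := by
      ext ⟨j, b⟩
      simp only [planted, mem_filter, mem_univ, true_and, mem_image, Prod.mk.injEq]
      constructor
      · intro h
        exact ⟨j, rfl, by rw [h]; abel⟩
      · rintro ⟨j', rfl, rfl⟩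
        abel
    rw [h, card_image_of_injective _ (fun j j' hj => (Prod.ext_iff.1 hj).1), card_univ,
      Fintype.card_fin]
  · rintro ⟨j, b⟩
    have h : (univ.filter fun u : Vx n q => (u, (j, b)) ∈ planted x y) =
        univ.image fun i : Fin n => (i, b - y j + x i) := by
      ext ⟨i, a⟩
      simp only [planted, mem_filter, mem_univ, true_and, mem_image, Prod.mk.injEq]
      constructor
      · intro h
        exact ⟨i, rfl, by rw [← h]; abel⟩
      · rintro ⟨i', rfl, rfl⟩
        abel
    rw [h, card_image_of_injective _ (fun j j' hj => (Prod.ext_iff.1 hj).1), card_univ,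
      Fintype.card_fin]

theorem planted_closed [NeZero q] (x y : Fin n → Fin q) :
    ∃ A B, Closed (planted x y) A B := by
  have hc : ∀ x : Fin n → Fin q, (univ.image fun i : Fin n => (i, x i)).card = n := by
    intro x
    rw [card_image_of_injective _ (fun j j' hj => (Prod.ext_iff.1 hj).1), card_univ,
      Fintype.card_fin]
  refine ⟨univ.image fun i => (i, x i), univ.image fun i => (i, y i), ?_, ?_⟩
  · rw [hc, hc]; ring
  · rintro ⟨⟨i, a⟩, ⟨j, b⟩⟩ he
    simp only [planted, mem_filter, mem_univ, true_and] at he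
    simp only [mem_image, mem_univ, true_and, Prod.mk.injEq]
    constructor
    · rintro ⟨i', rfl, rfl⟩
      refine ⟨j, rfl, ?_⟩
      rw [sub_self] at he
      exact (sub_eq_zero.1 he.symm).symm
    · rintro ⟨j', rfl, rfl⟩
      refine ⟨i, rfl, ?_⟩
      rw [sub_self] at he
      exact (sub_eq_zero.1 he).symm

open Classical in
theorem pl_eq [NeZero q] (x : Asg (Fin q) (Fin q) Unit n) :
    (sys n q).pl x = planted x.1 x.2.1 := by
  rw [Sys.pl, planted]
  ext e
  simp only [mem_filter]
  rfl

/-- the exponent -/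
noncomputable def gm (q : ℕ) (ε : ℝ) : ℝ := gam (2 * q * Real.log 2) (1 / q ^ 2) ε

theorem gm_pos (hq : 1 ≤ q) {ε : ℝ} (hε : 0 < ε) : 0 < gm q ε := by
  have : (0 : ℝ) < q := by exact_mod_cast hq
  have h2 := Real.log_pos (show (1 : ℝ) < 2 by norm_num)
  exact gam_pos (by positivity) (by positivity) hε

theorem sx_lower (hq : 1 ≤ q) {ε : ℝ} (hε : 0 < ε) (hε1 : ε ≤ 1) {R : Type} [Fintype R]
    [Nonempty R] {f : R → (Ed n q → ℝ) → ℝ}
    (hf : Approx (1 / q + ε) ((2 : ℝ) ^ (-(gm q ε * n))) f) {s : ℕ}
    (hs : ∀ r, Computes (f r) s) : (2 : ℝ) ^ (gm q ε * n) ≤ s + 1 := by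
  classical
  have : NeZero q := ⟨by omega⟩
  have hq' : (1 : ℝ) ≤ q := by exact_mod_cast hq
  have hlog := Real.log_pos (show (1 : ℝ) < 2 by norm_num)
  refine lower (S := sys n q) (B := 2 * q * Real.log 2) (ν := 1 / q ^ 2) reg hε hε1
    (by positivity) (le_of_eq (by field_simp)) (one_le_pow₀ hq') (by positivity) ?_ ?_
    (fun r w hw => ?_) (fun x => ?_) hs
  · have h1 : Fintype.card (Sets n q) ≤ 2 ^ (n * q) * 2 ^ (n * q) := by
      refine (Fintype.card_subtype_le _).trans (le_of_eq ?_)
      rw [Fintype.card_prod, Fintype.card_finset, Fintype.card_prod, Fintype.card_fin,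
        Fintype.card_fin]
    have h2 : Real.exp (2 * q * Real.log 2 * n) = 2 ^ (n * q) * 2 ^ (n * q) := by
      rw [← pow_add, ← Real.rpow_natCast, Real.rpow_def_of_pos (by norm_num)]
      congr 1
      push_cast
      ring
    rw [h2]
    exact_mod_cast h1
  · exact Fintype.card_pos
  · obtain ⟨A, B, hAB, h⟩ := hf.sound r w hw
    exact ⟨⟨(A, B), hAB⟩, h⟩
  · have h1 := hf.good n (planted x.1 x.2.1) (planted_regular _ _) (planted_closed _ _)
    have h2 : (n : ℝ) ^ 2 = n * n := by ring
    rw [pl_eq, h2]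
    convert h1 using 6
    · rfl
    · exact congrArg _ (funext fun e => by congr)

/-- the edges between the labels `a` and `b` -/
def cls (n : ℕ) (ab : Fin q × Fin q) : Finset (Ed n q) :=
  univ.filter fun e => e.1.2 = ab.1 ∧ e.2.2 = ab.2

/-- the program of ratio `1 / q` -/
noncomputable def prog (n q : ℕ) : (Ed n q → ℝ) → ℝ :=
  maxTot ((univ : Finset (Fin q × Fin q)).toList.map fun ab => cls n ab)

theorem one_class (e : Ed n q) :
    (univ.filter fun ab : Fin q × Fin q => e ∈ cls n ab).card = 1 := by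
  rw [card_eq_one]
  refine ⟨(e.1.2, e.2.2), ?_⟩
  ext ⟨a, b⟩
  simp only [cls, mem_filter, mem_univ, true_and, mem_singleton, Prod.mk.injEq]
  exact ⟨fun h => ⟨h.1.symm, h.2.symm⟩, fun h => ⟨h.1.symm, h.2.symm⟩⟩

theorem prog_computes (n q : ℕ) :
    Computes (prog n q) (2 * Fintype.card (Ed n q) + q ^ 2 + 1) := by
  have h := computes_maxTot ((univ : Finset (Fin q × Fin q)).toList.map fun ab => cls n ab)
  have h1 : (((univ : Finset (Fin q × Fin q)).toList.map fun ab => cls n ab).map
      Finset.card).sum = Fintype.card (Ed n q) := by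
    rw [List.map_map, sum_map_toList]
    have h2 : ∀ ab : Fin q × Fin q, (cls n ab).card = ∑ e : Ed n q, if e ∈ cls n ab then 1 else 0 := by
      intro ab
      rw [← card_filter]
      congr 1
      ext e
      simp
    simp only [Function.comp_apply]
    rw [sum_congr rfl fun ab _ => h2 ab, sum_comm]
    simp only [← card_filter, one_class, sum_const, card_univ, smul_eq_mul, mul_one]
  have hq2 : Fintype.card (Fin q × Fin q) = q ^ 2 := by
    rw [Fintype.card_prod, Fintype.card_fin, sq]
  rw [h1, List.length_map, length_toList, card_univ, hq2] at h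
  obtain ⟨l, h3, h4, h5⟩ := h
  exact ⟨l, h3, h4, h5.trans (by omega)⟩

theorem cls_eq (ab : Fin q × Fin q) : cls n ab =
    (univ.filter fun u : Vx n q => u.2 = ab.1) ×ˢ (univ.filter fun v : Vx n q => v.2 = ab.2) := by
  ext e
  simp [cls]

theorem card_label (a : Fin q) : (univ.filter fun u : Vx n q => u.2 = a).card = n := by
  have h : (univ.filter fun u : Vx n q => u.2 = a) = univ.image fun i : Fin n => (i, a) := by
    ext ⟨i, b⟩
    simp only [mem_filter, mem_univ, true_and, mem_image, Prod.mk.injEq]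
    exact ⟨fun h => ⟨i, rfl, h.symm⟩, fun ⟨_, _, h⟩ => h.symm⟩
  rw [h, card_image_of_injective _ (fun j j' hj => (Prod.ext_iff.1 hj).1), card_univ,
    Fintype.card_fin]

theorem prog_sound (w : Ed n q → ℝ) :
    ∃ A B : Finset (Vx n q), A.card + B.card ≤ 2 * n ∧ prog n q w ≤ ∑ e ∈ A ×ˢ B, w e := by
  rcases maxTot_le (As := (univ : Finset (Fin q × Fin q)).toList.map
    fun ab => cls n ab) w with h | ⟨A, hA, h⟩
  · exact ⟨∅, ∅, by simp, by rw [prog, h]; simp⟩
  · obtain ⟨ab, _, rfl⟩ := List.mem_map.1 hA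
    exact ⟨univ.filter fun u : Vx n q => u.2 = ab.1, univ.filter fun v : Vx n q => v.2 = ab.2,
      by rw [card_label, card_label]; omega, by rw [prog, h, tot, cls_eq]⟩

theorem prog_good (hq : 1 ≤ q) (w : Ed n q → ℝ) : 1 / q ^ 2 * ∑ e, w e ≤ prog n q w := by
  have hq' : (0 : ℝ) < q := by exact_mod_cast hq
  have h1 : ∀ ab : Fin q × Fin q, ∑ e ∈ cls n ab, w e ≤ prog n q w := fun ab =>
    le_maxTot (w := w) _ (List.mem_map.2 ⟨ab, by simp, rfl⟩)
  have h2 : ∑ ab : Fin q × Fin q, ∑ e ∈ cls n ab, w e = ∑ e, w e := by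
    have h3 : ∀ ab : Fin q × Fin q, ∑ e ∈ cls n ab, w e =
        ∑ e, if e ∈ cls n ab then w e else 0 := by
      intro ab
      rw [← sum_filter]
      congr 1
      ext e
      simp
    rw [sum_congr rfl fun ab _ => h3 ab, sum_comm]
    refine sum_congr rfl fun e _ => ?_
    rw [← sum_filter, sum_const, one_class, one_smul]
  have h3 : ∑ ab : Fin q × Fin q, ∑ e ∈ cls n ab, w e ≤ q ^ 2 * prog n q w := by
    calc _ ≤ ∑ _ab : Fin q × Fin q, prog n q w := sum_le_sum fun ab _ => h1 ab
      _ = _ := by
        rw [sum_const, card_univ, nsmul_eq_mul, Fintype.card_prod, Fintype.card_fin]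
        push_cast
        ring
  rw [h2] at h3
  rw [one_div, inv_mul_le_iff₀ (by positivity)]
  exact h3

theorem prog_regular (hq : 1 ≤ q) {d : ℕ} {G : Finset (Ed n q)} (h : G.card = n * q * d) :
    1 / q * (d * n) ≤ prog n q (fun e => if e ∈ G then 1 else 0) := by
  have hq' : (0 : ℝ) < q := by exact_mod_cast hq
  refine le_trans (le_of_eq ?_) (prog_good hq _)
  have h1 : ∑ e : Ed n q, (if e ∈ G then (1 : ℝ) else 0) = n * q * d := by
    rw [← sum_filter, sum_const, nsmul_eq_mul, mul_one]
    have h2 : (univ.filter fun e => e ∈ G) = G := by ext e; simp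
    rw [h2, h]
    push_cast
    ring
  rw [h1]
  field_simp

theorem card_regular {d : ℕ} {G : Finset (Ed n q)} (h : Regular d G) : G.card = n * q * d := by
  have h1 : G.card = ∑ u : Vx n q, (univ.filter fun v : Vx n q => (u, v) ∈ G).card := by
    have h2 : G.card = ∑ e : Ed n q, if e ∈ G then 1 else 0 := by
      rw [← card_filter]
      congr 1
      ext e
      simp
    rw [h2, Fintype.sum_prod_type]
    refine sum_congr rfl fun u _ => ?_
    rw [card_filter]
  rw [h1, sum_congr rfl fun u _ => h.1 u, sum_const, card_univ, Fintype.card_prod,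
    Fintype.card_fin, Fintype.card_fin, smul_eq_mul]

end Pool.Agent.TH837.SX
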